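import Mathlib
import Pool.Agent.R819.BG.Fin

/-!
# Growth of balls from `(1 + ε)`-fold radius to tripled radius: a negative answer

`BallGrowth ε K` is the assertion of the question for the given `ε` and `K`. We show that for every `ε < 1/2` there
is a `K` for which it fails, even for finite groups. In particular the answer to the question (every `ε > 0` and
every `K ≥ 1`) is negative.

The groups are symmetric groups of finite sets `U ∪ Y`, with `Y` very large compared with `U`, and `S` consists of
the permutations which extend one of finitely many injections between subsets of `U`. The order of magnitude of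
`|S ^ r|` is `N! N ^ (-k)`, where `N` is the number of elements of `U ∪ Y` and `k` is the least rank of a composition
of `r` of the injections. These injections are constructed in such a way that this rank is `1` for all `r` between
`n` and `(1 + ε) n` and `0` for `r = 3 n`, and that the numbers of compositions of rank `1` are comparable.
-/

set_option autoImplicit false

namespace Pool.Agent.Results.MP_5a2001_al.BallGrowthFails

open Pointwise MeasureTheory

/-- The assertion of the question for given `ε` and `K`: there are `n₀` and `C` such that for every locally compact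
Hausdorff group `G` with a left Haar measure `μ`, every precompact open symmetric `S` containing `1` and every
`n ≥ n₀` with `μ (S ^ ⌈(1 + ε) n⌉) ≤ K μ (S ^ n)` one has `μ (S ^ (3 n)) ≤ C μ (S ^ n)`. -/
def BallGrowth (ε K : ℝ) : Prop :=
  ∃ (n₀ : ℕ) (C : ℝ), ∀ (G : Type) [Group G] [TopologicalSpace G] [IsTopologicalGroup G]
    [LocallyCompactSpace G] [T2Space G] [MeasurableSpace G] [BorelSpace G] (μ : Measure G)
    [μ.IsHaarMeasure] (S : Set G), IsOpen S → IsCompact (closure S) → S⁻¹ = S → (1 : G) ∈ S →
    ∀ n : ℕ, n₀ ≤ n → μ (S ^ ⌈(1 + ε) * n⌉₊) ≤ ENNReal.ofReal K * μ (S ^ n) →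
      μ (S ^ (3 * n)) ≤ ENNReal.ofReal C * μ (S ^ n)

/-- The question has a negative answer. For every `0 < ε < 1/2` there is an integer `K ≥ 1` such that
(1) for all `n₀` and `C` there are a finite group `G`, a symmetric subset `S` containing `1` and `n ≥ n₀` with
`|S ^ ⌈(1 + ε) n⌉| ≤ K |S ^ n|` and `|S ^ (3 n)| > C |S ^ n|`;
(2) the assertion of the question fails for `ε` and `K`. -/
theorem result : (∀ ε : ℝ, 0 < ε → ε < 1 / 2 → ∃ K : ℕ, 1 ≤ K ∧
      (∀ n₀ C : ℕ, ∃ (G : Type) (_ : Group G) (_ : Finite G) (S : Set G) (n : ℕ), n₀ ≤ n ∧ S⁻¹ = S ∧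
        (1 : G) ∈ S ∧ (S ^ ⌈(1 + ε) * n⌉₊).ncard ≤ K * (S ^ n).ncard ∧
        C * (S ^ n).ncard < (S ^ (3 * n)).ncard) ∧
      ¬ BallGrowth ε K) ∧
    ¬ ∀ K : ℝ, 1 ≤ K → ∀ ε : ℝ, 0 < ε → BallGrowth ε K := by
  have main : ∀ ε : ℝ, 0 < ε → ε < 1 / 2 → ∃ K : ℕ, 1 ≤ K ∧
      (∀ n₀ C : ℕ, ∃ (G : Type) (_ : Group G) (_ : Finite G) (S : Set G) (n : ℕ), n₀ ≤ n ∧ S⁻¹ = S ∧
        (1 : G) ∈ S ∧ (S ^ ⌈(1 + ε) * n⌉₊).ncard ≤ K * (S ^ n).ncard ∧
        C * (S ^ n).ncard < (S ^ (3 * n)).ncard) ∧
      ¬ BallGrowth ε K := by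
    intro ε h0 h1
    obtain ⟨K, hK1, hK⟩ := Pool.Agent.R819.BG.fin_main ε h0 h1
    refine ⟨K, hK1, hK, ?_⟩
    rintro ⟨n₀, C, hB⟩
    obtain ⟨G, hG, hF, S, n, hn, hS, h1S, hup, hlo⟩ := hK n₀ ⌈C⌉₊
    let _ : TopologicalSpace G := ⊥
    have : DiscreteTopology G := ⟨rfl⟩
    let _ : MeasurableSpace G := ⊤
    have : BorelSpace G := ⟨(borel_eq_top_of_discrete).symm⟩
    have hm : ∀ T : Set G, MeasurableSet T := fun T => MeasurableSpace.measurableSet_top
    have : MeasurableSingletonClass G := ⟨fun _ => hm _⟩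
    have hcount : ∀ T : Set G, (Measure.count : Measure G) T = (T.ncard : ENNReal) := by
      intro T
      rw [Measure.count_apply_finite' (Set.toFinite T) (hm T), Set.ncard_eq_toFinset_card T (Set.toFinite T)]
    have : (Measure.count : Measure G).IsMulLeftInvariant := by
      refine ⟨fun g => ?_⟩
      ext T _
      rw [Measure.map_apply (measurable_of_finite _) (hm T), hcount, hcount]
      congr 1
      exact Set.ncard_preimage_of_injective_subset_range (mul_right_injective g)
        (by rw [(Group.mulLeft_bijective g).surjective.range_eq]; exact Set.subset_univ _)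
    have : (Measure.count : Measure G).IsHaarMeasure :=
      { lt_top_of_isCompact := fun T _ => by rw [hcount]; exact ENNReal.natCast_lt_top _
        open_pos := fun T _ hT => by
          rw [hcount]
          have : 0 < T.ncard := (Set.ncard_pos (Set.toFinite T)).mpr hT
          exact_mod_cast this.ne' }
    have h2 := hB G Measure.count S (isOpen_discrete S) ((Set.toFinite _).isCompact) hS h1S n hn (by
      rw [hcount, hcount, ENNReal.ofReal_natCast]
      exact_mod_cast hup)
    rw [hcount, hcount] at h2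
    have h3 : ENNReal.ofReal C ≤ (⌈C⌉₊ : ENNReal) := by
      rw [← ENNReal.ofReal_natCast]
      exact ENNReal.ofReal_le_ofReal (Nat.le_ceil C)
    have h4 : ((S ^ (3 * n)).ncard : ENNReal) ≤ (⌈C⌉₊ : ENNReal) * (S ^ n).ncard :=
      h2.trans (by gcongr)
    have h5 : (S ^ (3 * n)).ncard ≤ ⌈C⌉₊ * (S ^ n).ncard := by exact_mod_cast h4
    omega
  refine ⟨main, fun h => ?_⟩
  obtain ⟨K, hK1, -, hK⟩ := main (1 / 4) (by norm_num) (by norm_num)
  exact hK (h K (by exact_mod_cast hK1) (1 / 4) (by norm_num))

end Pool.Agent.Results.MP_5a2001_al.BallGrowthFails
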